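import Pool.Agent.Run7.h230.QF.Stm

set_option autoImplicit false

/-!
Project QF (helper230), piece HEL (helper382): the Helly property in median graphs
-/

namespace Pool.Agent.Run7.h382.QF

open Pool.Agent.H97R3.VR (IsMedian IsConvex Btw)
open Pool.Agent.Run7.h230.QF

variable {V : Type} {Γ : SimpleGraph V}

theorem convex_inter {A B : Set V} (hA : IsConvex Γ A) (hB : IsConvex Γ B) : IsConvex Γ (A ∩ B) :=
  fun u hu v hv m hm => ⟨hA u hu.1 v hv.1 m hm, hB u hu.2 v hv.2 m hm⟩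

/-- the Helly property for three convex sets -/
theorem hel3 (hΓ : IsMedian Γ) {A B C : Set V} (hA : IsConvex Γ A) (hB : IsConvex Γ B)
    (hC : IsConvex Γ C) (h1 : (A ∩ B).Nonempty) (h2 : (B ∩ C).Nonempty) (h3 : (A ∩ C).Nonempty) :
    (A ∩ B ∩ C).Nonempty := by
  obtain ⟨p, hpA, hpB⟩ := h1
  obtain ⟨q, hqB, hqC⟩ := h2
  obtain ⟨r, hrA, hrC⟩ := h3
  obtain ⟨m, ⟨m1, m2, m3⟩, -⟩ := hΓ.med p q r
  exact ⟨m, ⟨hA p hpA r hrA m m3, hB p hpB q hqB m m1⟩, hC q hqC r hrC m m2⟩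

theorem helI (hΓ : IsMedian Γ) {ι : Type} (s : Finset ι) (A : ι → Set V)
    (hc : ∀ i ∈ s, IsConvex Γ (A i)) (hi : ∀ i ∈ s, ∀ j ∈ s, (A i ∩ A j).Nonempty) :
    ∃ v, ∀ i ∈ s, v ∈ A i := by
  classical
  induction s using Finset.induction_on generalizing A with
  | empty =>
    obtain ⟨v⟩ := hΓ.conn.nonempty
    exact ⟨v, fun i hi => absurd hi (Finset.notMem_empty i)⟩
  | insert a s _ ih =>
    rcases s.eq_empty_or_nonempty with rfl | ⟨b, hb⟩
    · obtain ⟨v, hv, -⟩ := hi a (Finset.mem_insert_self _ _) a (Finset.mem_insert_self _ _)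
      refine ⟨v, fun i hi' => ?_⟩
      rw [Finset.mem_insert] at hi'
      rcases hi' with rfl | h
      · exact hv
      · exact absurd h (Finset.notMem_empty i)
    · have ha := Finset.mem_insert_self a s
      have hs : ∀ i ∈ s, i ∈ insert a s := fun i h => Finset.mem_insert_of_mem h
      obtain ⟨v, hv⟩ := ih (fun i => A i ∩ A a)
        (fun i h => convex_inter (hc i (hs i h)) (hc a ha))
        (fun i h j h' => by
          obtain ⟨x, ⟨hx1, hx2⟩, hx3⟩ := hel3 hΓ (hc i (hs i h)) (hc j (hs j h')) (hc a ha)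
            (hi i (hs i h) j (hs j h')) (hi j (hs j h') a ha) (hi i (hs i h) a ha)
          exact ⟨x, ⟨hx1, hx3⟩, hx2, hx3⟩)
      refine ⟨v, fun i hi' => ?_⟩
      rw [Finset.mem_insert] at hi'
      rcases hi' with rfl | h
      · exact (hv b hb).2
      · exact (hv i h).1

theorem t_HEL : S_HEL := by
  intro V Γ hΓ 𝒜 hc hi
  exact helI hΓ 𝒜 (fun A => A) hc hi

end Pool.Agent.Run7.h382.QF
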